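import Mathlib
import Pool.Agent.H23.TriamA

set_option autoImplicit false

namespace Pool.Agent.Results.MP_2f8eff_co.Counter
open Pool.Agent.H23.Triam

theorem result : ¬ ∀ (V : Type) [Fintype V] (G : SimpleGraph V), IsMedian G →
    ∀ a b c, Triametral G a b c → Peripheral G a ∨ Peripheral G b ∨ Peripheral G c := by
  intro h
  rcases h _ _ m2 _ _ _ r2.1 with h | h | h
  · exact r2.2.1 h
  · exact r2.2.2.1 h
  · exact r2.2.2.2 h

end Pool.Agent.Results.MP_2f8eff_co.Counter
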